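import Pool.Agent.Lib.helper3.AR2
import Pool.Agent.Lib.helper3.AR3

namespace Pool.Agent.Results.MP_646863_pr.Wreath

open MeasureTheory Pool.Agent.Lib.helper3.AR

noncomputable abbrev K : Subgroup A := Subgroup.closure {tt, fn 1}

def t : K := ⟨tt, Subgroup.subset_closure (by simp)⟩
def d : K := ⟨fn 1, Subgroup.subset_closure (by simp)⟩

lemma gen : Subgroup.closure {t, d} = ⊤ := by
  rw [← Subgroup.closure_closure_coe_preimage]
  congr 1
  ext x
  simp [t, d, Subtype.ext_iff]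

def Harm (f : K → ℝ) : Prop := ∀ x, 4 * f x = f (x * t) + f (x * t⁻¹) + f (x * d) + f (x * d⁻¹)

lemma p_zpow (j : ℤ) : (t ^ j).1.p = j := by
  induction j using Int.induction_on with
  | zero => rfl
  | succ i ih => rw [zpow_add_one, Subgroup.coe_mul, mul_p, ih]; rfl
  | pred i ih => rw [zpow_sub_one, Subgroup.coe_mul, mul_p, ih]; rfl

lemma sup0 (f : K → ℝ) (C : ℝ) (hC : ∀ x, |f x| ≤ C) (hf : Harm f) :
    ∃ M, (∀ x, f x ≤ M) ∧ ∀ δ > 0, ∃ x : K, x.1.p = 0 ∧ M - f x ≤ δ := by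
  have ne : ∀ j, Nonempty {x : K // x.1.p = j} := fun j => ⟨⟨_, p_zpow j⟩⟩
  let m : ℤ → ℝ := fun j => ⨆ x : {x : K // x.1.p = j}, f x
  have h1 : ∀ (x : K) j, x.1.p = j → f x ≤ m j := fun x j h =>
    le_ciSup (f := fun x : {x : K // x.1.p = j} => f x)
      ⟨C, by rintro _ ⟨y, rfl⟩; exact (abs_le.mp (hC _)).2⟩ ⟨x, h⟩
  have h2 := conv_const m C (fun j => abs_le.mpr ⟨(abs_le.mp (hC _)).1.trans (h1 _ j (p_zpow j)),
    ciSup_le fun x => (abs_le.mp (hC _)).2⟩) fun j => by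
      have : m j ≤ (m (j + 1) + m (j - 1) + 2 * m j) / 4 := ciSup_le fun ⟨x, hx⟩ => by
        have a1 := h1 (x * t) (j + 1) (by rw [← hx]; rfl)
        have a2 := h1 (x * t⁻¹) (j - 1) (by rw [← hx]; rfl)
        have a3 := h1 (x * d) j (by rw [← hx]; exact add_zero _)
        have a4 := h1 (x * d⁻¹) j (by rw [← hx]; exact add_zero _)
        linarith [hf x]
      linarith
  refine ⟨m 0, fun x => h2 _ ▸ h1 x _ rfl, fun δ hδ => ?_⟩
  obtain ⟨x, hx⟩ := exists_lt_of_lt_ciSup (show m 0 - δ < m 0 by linarith)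
  exact ⟨x, x.2, by linarith⟩

lemma inv_le (f : K → ℝ) (C : ℝ) (hC : ∀ x, |f x| ≤ C) (hf : Harm f) (h : K) (hh : h.1.p = 0)
    (x : K) : f (h * x) ≤ f x := by
  have hD : Harm fun x => f (h * x) - f x := fun x => by
    have := hf (h * x)
    simp only [mul_assoc] at this
    linarith [hf x]
  obtain ⟨M, h1, h2⟩ := sup0 _ (C + C) (fun x => (abs_sub _ _).trans (add_le_add (hC _) (hC _))) hD
  obtain ⟨c, h3, h4⟩ := harnack gen (fun x => M - (f (h * x) - f x)) (fun s hs => ⟨4, by norm_num,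
    fun x => by
      rcases hs with rfl | rfl <;> constructor <;>
        linarith [hD x, h1 (x * t), h1 (x * t⁻¹), h1 (x * d), h1 (x * d⁻¹)]⟩) h
  have := cd f C hC h M c h3 h4 fun δ hδ => by
    obtain ⟨y, h5, h6⟩ := h2 δ hδ
    exact ⟨y, Subtype.ext (comm_of_p hh h5), h6⟩
  linarith [h1 x]

lemma le_one (f : K → ℝ) (C : ℝ) (hC : ∀ x, |f x| ≤ C) (hf : Harm f) (x : K) : f x ≤ f 1 := by
  obtain ⟨M, h1, h2⟩ := sup0 f C hC hf
  refine (h1 x).trans (le_of_forall_pos_le_add fun δ hδ => ?_)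
  obtain ⟨y, h3, h4⟩ := h2 δ hδ
  have := inv_le f C hC hf y h3 1
  rw [mul_one] at this
  linarith

theorem result : ∃ (G : Type) (_ : Group G) (S : Finset G), 1 ∉ S ∧ (∀ s ∈ S, s⁻¹ ∈ S) ∧
    Subgroup.closure (S : Set G) = ⊤ ∧
    (∀ f : G → ℝ, (∃ C, ∀ g, |f g| ≤ C) → (∀ g, f g = (∑ s ∈ S, f (g * s)) / S.card) →
      ∀ g h, f g = f h) ∧
    letI : MeasurableSpace G := ⊤
    ∃ μ : PMF G, (∀ g, μ g⁻¹ = μ g) ∧ Subgroup.closure μ.support = ⊤ ∧
      ∃ n : ℕ, 1 ≤ n ∧ ¬ ∀ᵐ z ∂(Measure.infinitePi fun _ : ℕ => μ.toMeasure),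
        Subsemigroup.closure (Set.range fun k : ℕ => ((List.range (n + k)).map z).prod) = ⊤ := by
  classical
  have e : ∀ {a b : K}, a.1.p ≠ b.1.p ∨ a.1.F 0 ≠ b.1.F 0 → a ≠ b := fun h e => by simp [e] at h
  have n1 : t ≠ t⁻¹ := e (by simp [t, tt, inv_p])
  have n2 : t ≠ d := e (by simp [t, d, tt, fn])
  have n3 : t ≠ d⁻¹ := e (by simp [t, d, tt, fn, inv_p])
  have n4 : t⁻¹ ≠ d := e (by simp [t, d, tt, fn, inv_p])
  have n5 : t⁻¹ ≠ d⁻¹ := e (by simp [t, d, tt, fn, inv_p])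
  have n6 : d ≠ d⁻¹ := e (by norm_num [d, fn, inv_F])
  have n7 : 1 ≠ t := e (by simp [t, tt, one_p])
  have n8 : 1 ≠ d := e (by simp [d, fn, one_F])
  refine ⟨K, inferInstance, {t, t⁻¹, d, d⁻¹}, by simp [n7, n8, n7.symm, n8.symm], by simp, ?_,
    fun f ⟨C, hC⟩ hf => ?_, ?_⟩
  · rw [eq_top_iff, ← gen]
    exact Subgroup.closure_mono (by simp [Set.insert_subset_iff])
  · have h1 : Harm f := fun x => by
      rw [hf x, Finset.card_eq_sum_ones]
      simp only [Finset.sum_insert (show t ∉ ({t⁻¹, d, d⁻¹} : Finset K) by simp [n1, n2, n3]),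
        Finset.sum_insert (show t⁻¹ ∉ ({d, d⁻¹} : Finset K) by simp [n4, n5]), Finset.sum_pair n6]
      push_cast
      ring
    have h2 : ∀ x, f x = f 1 := fun x => (le_one f C hC h1 x).antisymm (by
      simpa using le_one (fun x => -f x) C (fun y => abs_neg (f y) ▸ hC y) (fun y => by linarith [h1 y]) x)
    exact fun g h => (h2 g).trans (h2 h).symm
  let : MeasurableSpace K := ⊤
  obtain ⟨μ, h1, h2, h3⟩ := notAR K.subtype
    (fun k => if k = 0 then t else if k = 1 then d else ⟨tg k, tg_mem k⟩)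
    (fun k hk => by interval_cases k <;> simp [t, d])
    (fun k hk => by simp [show k ≠ 0 by omega, show k ≠ 1 by omega])
    (by
      rw [eq_top_iff, ← gen]
      refine Subgroup.closure_mono ?_
      rintro _ (rfl | rfl)
      · exact ⟨0, rfl⟩
      · exact ⟨1, rfl⟩)
  exact ⟨μ, h1, h2, 1, le_rfl, h3⟩

end Pool.Agent.Results.MP_646863_pr.Wreath
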